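import Pool.Agent.Q266.RP.Stm

/-! Project RP (helper266), job STEP: the descent step. -/

namespace Pool.Agent.Q277.RP

open Module Pool.Agent.Q266.RP

/-- powers of a central element that acts as a scalar -/
theorem pow_scalar {G V : Type} [Group G] [AddCommGroup V] [Module ℂ V]
    (ρ : Representation ℂ G V) {z : G} {ω : ℂ} (h : ∀ v, ρ z v = ω • v) (n : ℕ) (v : V) :
    ρ (z ^ n) v = ω ^ n • v := by
  induction n with
  | zero => simp
  | succ n ih =>
    rw [pow_succ', map_mul, Module.End.mul_apply, ih, map_smul, h, smul_smul, pow_succ]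

/-- `ω` is a primitive root of unity -/
theorem pow_ne {G V : Type} [Group G] [AddCommGroup V] [Module ℂ V] [Nontrivial V]
    (ρ : Representation ℂ G V) {p : ℕ} [Fact p.Prime] {z : G} (hz : orderOf z = p) {ω : ℂ}
    (h : ∀ v, ρ z v = ω • v) (hω : ω ≠ 1) {n : ℕ} (hn : z ^ n ≠ 1) : ω ^ n ≠ 1 := by
  intro h1
  have h2 : ω ^ p = 1 := by
    obtain ⟨v, hv⟩ := exists_ne (0 : V)
    have h3 := pow_scalar ρ h p v
    have h4 : z ^ p = 1 := by rw [← hz]; exact pow_orderOf_eq_one z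
    rw [h4, map_one, Module.End.one_apply] at h3
    by_contra h5
    have h6 : (ω ^ p - 1) • v = 0 := by rw [sub_smul, one_smul, ← h3, sub_self]
    rcases smul_eq_zero.1 h6 with h7 | h7
    · exact h5 (sub_eq_zero.1 h7)
    · exact hv h7
  have h3 : orderOf ω ∣ n := orderOf_dvd_of_pow_eq_one h1
  have h4 : orderOf ω = p := orderOf_eq_prime h2 hω
  rw [h4] at h3
  apply hn
  rw [← hz] at h3
  exact orderOf_dvd_iff_pow_eq_one.1 h3

theorem step : S_DESC → S_EIG → S_TRZ → S_CARDC → S_STEP := by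
  intro hD hE hT hC p _ G V _ _ _ _ _ ρ hρ e z hP ω hω hω1 x hx
  have hnt : Nontrivial V := hρ.1
  obtain ⟨hep, hec, hzc, hzo, hconj⟩ := hP
  have hzcom : ∀ g : G, g * z = z * g := fun g => (Subgroup.mem_center_iff.1 hzc g)
  have hzpow : ∀ (g : G) (n : ℕ), g * z ^ n = z ^ n * g := fun g n =>
    ((Commute.pow_right (hzcom g : Commute g z) n) : Commute g (z ^ n))
  -- `x` commutes with `e`
  have hxe : x * e = e * x := by
    by_contra hne
    obtain ⟨n, hn⟩ := hconj x
    have h1 : z ^ n ≠ 1 := by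
      intro h2
      rw [h2, mul_one] at hn
      exact hne (mul_inv_eq_iff_eq_mul.1 hn)
    refine hx (hT G V ρ x e⁻¹ (z ^ n) (ω ^ n) (pow_scalar ρ hω n) (pow_ne ρ hzo hω hω1 h1) ?_)
    have h2 : x * e = e * z ^ n * x := mul_inv_eq_iff_eq_mul.1 hn
    rw [inv_inv, mul_assoc, h2, mul_assoc, inv_mul_cancel_left, hzpow]
  obtain ⟨W, hWi, hWinv, hWf, hWne, hWirr, hWn⟩ := hE p G V ρ hρ e z
    ⟨hep, hec, hzc, hzo, hconj⟩ ω hω hω1
  have hxC : x ∈ Subgroup.centralizer ({e} : Set G) := by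
    rw [Subgroup.mem_centralizer_singleton_iff]
    exact hxe
  have htr := LinearMap.trace_eq_sum_trace_restrict hWi (f := ρ x) (fun j w hw => hWinv j x hxC w hw)
  obtain ⟨j, hj⟩ : ∃ j, LinearMap.trace ℂ (W j)
      ((ρ x).restrict (fun w hw => hWinv j x hxC w hw)) ≠ 0 := by
    by_contra hcon
    push Not at hcon
    apply hx
    rw [htr]
    exact Finset.sum_eq_zero fun j _ => hcon j
  obtain ⟨n, hn⟩ := hWn j
  have hu : e * z ^ n ∈ Subgroup.centralizer ({e} : Set G) := by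
    rw [Subgroup.mem_centralizer_singleton_iff, mul_assoc, ← hzpow]
  have hcen : ∀ c : Subgroup.centralizer ({e} : Set G),
      c * ⟨e * z ^ n, hu⟩ = ⟨e * z ^ n, hu⟩ * c := by
    intro c
    apply Subtype.ext
    show (c : G) * (e * z ^ n) = e * z ^ n * c
    have h1 : (c : G) * e = e * c := Subgroup.mem_centralizer_singleton_iff.1 c.2
    rw [← mul_assoc, h1, mul_assoc, hzpow, ← mul_assoc]
  have hN : (Subgroup.zpowers (⟨e * z ^ n, hu⟩ : Subgroup.centralizer ({e} : Set G))).Normal := by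
    have h1 : Subgroup.zpowers (⟨e * z ^ n, hu⟩ : Subgroup.centralizer ({e} : Set G)) ≤
        Subgroup.center _ := by
      rw [Subgroup.zpowers_le, Subgroup.mem_center_iff]
      exact hcen
    refine ⟨fun a ha g => ?_⟩
    have h2 := Subgroup.mem_center_iff.1 (h1 ha) g
    rw [h2, mul_inv_cancel_right]
    exact ha
  obtain ⟨hD1, hD2⟩ := hD
  obtain ⟨σ₁, hσ₁, hσ₁e⟩ := hD1 G V ρ (Subgroup.centralizer ({e} : Set G)) (W j) (hWinv j)
    (hWne j) (hWirr j)
  have hker : ∀ c ∈ Subgroup.zpowers (⟨e * z ^ n, hu⟩ : Subgroup.centralizer ({e} : Set G)),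
      σ₁ c = 1 := by
    have h1 : Subgroup.zpowers (⟨e * z ^ n, hu⟩ : Subgroup.centralizer ({e} : Set G)) ≤
        MonoidHom.ker σ₁ := by
      rw [Subgroup.zpowers_le, MonoidHom.mem_ker, hσ₁e]
      refine LinearMap.ext fun w => Subtype.ext ?_
      exact hn w.1 w.2
    exact fun c hc => MonoidHom.mem_ker.1 (h1 hc)
  obtain ⟨σ, hσ, hσe⟩ := hD2 (Subgroup.centralizer ({e} : Set G)) (W j) σ₁
    (Subgroup.zpowers (⟨e * z ^ n, hu⟩ : Subgroup.centralizer ({e} : Set G))) hσ₁ hker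
  refine ⟨Subgroup.centralizer ({e} : Set G), hxC, n, hu, hN, W j, σ, hσ, hWf j, ?_, ?_⟩
  · rw [hσe, hσ₁e]
    exact hj
  · have h1 : orderOf (⟨e * z ^ n, hu⟩ : Subgroup.centralizer ({e} : Set G)) = p := by
      apply orderOf_eq_prime
      · apply Subtype.ext
        show (e * z ^ n) ^ p = 1
        have h2 : Commute e (z ^ n) := hzpow e n
        rw [h2.mul_pow, hep, one_mul, ← pow_mul, mul_comm, pow_mul, ← hzo, pow_orderOf_eq_one,
          one_pow]
      · intro h2
        have h3 : e * z ^ n = 1 := congrArg Subtype.val h2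
        apply hec
        rw [eq_inv_of_mul_eq_one_left h3]
        exact Subgroup.inv_mem _ (Subgroup.pow_mem _ hzc n)
    rw [hC p G e z ⟨hep, hec, hzc, hzo, hconj⟩,
      Subgroup.card_eq_card_quotient_mul_card_subgroup
        (Subgroup.zpowers (⟨e * z ^ n, hu⟩ : Subgroup.centralizer ({e} : Set G))),
      Nat.card_zpowers, h1]
    ring

end Pool.Agent.Q277.RP
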