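import Pool.Agent.Q266.RP.Stm

/-! Project RP (helper266), job SUB: subgroups and quotients of regular groups are regular. -/

namespace Pool.Agent.Q277.RP

open Pool.Agent.Q266.RP

/-- the subgroup in the definition of regularity -/
def ps (p : ℕ) {P : Type} [Group P] (a b : P) : Subgroup P :=
  Subgroup.closure {u : P | ∃ c ∈ ⁅Subgroup.closure ({a, b} : Set P),
      Subgroup.closure ({a, b} : Set P)⁆, u = c ^ p}

theorem map_ps (p : ℕ) {G G' : Type} [Group G] [Group G'] (f : G →* G') (a b : G) :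
    (ps p a b).map f = ps p (f a) (f b) := by
  unfold ps
  rw [MonoidHom.map_closure]
  have h1 : (Subgroup.closure ({a, b} : Set G)).map f = Subgroup.closure ({f a, f b} : Set G') := by
    rw [MonoidHom.map_closure, Set.image_pair]
  have h2 : ⁅Subgroup.closure ({f a, f b} : Set G'), Subgroup.closure ({f a, f b} : Set G')⁆ =
      (⁅Subgroup.closure ({a, b} : Set G), Subgroup.closure ({a, b} : Set G)⁆).map f := by
    rw [Subgroup.map_commutator, h1]
  rw [h2]
  congr 1
  ext u
  constructor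
  · rintro ⟨_, ⟨c, hc, rfl⟩, rfl⟩
    exact ⟨f c, Subgroup.mem_map_of_mem f hc, map_pow f c p⟩
  · rintro ⟨_, ⟨c, hc, rfl⟩, rfl⟩
    exact ⟨c ^ p, ⟨c, hc, rfl⟩, map_pow f c p⟩

theorem sub : S_SUB := by
  constructor
  · intro p G _ H hG a b
    obtain ⟨s, hs, h⟩ := hG (a : G) (b : G)
    have h1 : s ∈ (ps p a b).map H.subtype := by
      rw [map_ps]
      exact hs
    obtain ⟨t, ht, rfl⟩ := h1
    refine ⟨t, ht, ?_⟩
    apply H.subtype_injective
    rw [map_mul, map_pow, map_pow, map_mul, map_pow, map_mul]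
    exact h
  · intro p G _ N _ hG a b
    obtain ⟨a', rfl⟩ := QuotientGroup.mk'_surjective N a
    obtain ⟨b', rfl⟩ := QuotientGroup.mk'_surjective N b
    obtain ⟨s, hs, h⟩ := hG a' b'
    refine ⟨QuotientGroup.mk' N s, ?_, ?_⟩
    · have h1 : QuotientGroup.mk' N s ∈ (ps p a' b').map (QuotientGroup.mk' N) :=
        Subgroup.mem_map_of_mem _ hs
      rw [map_ps] at h1
      exact h1
    · rw [← map_pow, ← map_pow, ← map_mul, ← map_mul, ← map_pow, ← map_mul, h]

end Pool.Agent.Q277.RP
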